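import Mathlib
import Pool.Agent.W544.PG.Defs3

/-!
Project PG: rational numbers which are l-adic squares for all l are squares; Q_l embeds into C.
-/

namespace W435.PG

open Pool.Agent.W544.PG

theorem nat_sq_of_even (n : ℕ) (hn : n ≠ 0)
    (h : ∀ p : ℕ, p.Prime → Even (padicValNat p n)) : ∃ b : ℕ, b ^ 2 = n := by
  obtain ⟨a, b, hab, hsq⟩ := Nat.sq_mul_squarefree n
  have ha0 : a ≠ 0 := by
    rintro rfl
    simp at hab
    exact hn hab.symm
  have hb0 : b ≠ 0 := by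
    rintro rfl
    simp at hab
    exact hn hab.symm
  by_cases ha : a = 1
  · exact ⟨b, by rw [← hab, ha, mul_one]⟩
  · exfalso
    obtain ⟨p, hp, hpa⟩ := Nat.exists_prime_and_dvd ha
    have : Fact p.Prime := ⟨hp⟩
    have h1 := h p hp
    rw [← hab, padicValNat.mul (by positivity) ha0, padicValNat.pow] at h1
    have h2 : a.factorization p ≤ 1 := hsq.natFactorization_le_one p
    have h3 : 1 ≤ a.factorization p := (hp.dvd_iff_one_le_factorization ha0).1 hpa
    have h4 : padicValNat p a = 1 := by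
      rw [← Nat.factorization_def a hp]; omega
    rw [h4] at h1
    obtain ⟨c, hc⟩ := h1
    omega

theorem no_sq3 : ∀ x : ZMod 3, x ^ 2 ≠ -1 := by decide

theorem sqr : S_sqr := by
  intro r hr
  by_cases hr0 : r = 0
  · exact ⟨0, by rw [hr0]; norm_num⟩
  have hval : ∀ (l : ℕ) [Fact l.Prime], ∃ k : ℤ, padicValRat l r = 2 * k := by
    intro l _
    obtain ⟨z, hz⟩ := hr l
    refine ⟨z.valuation, ?_⟩
    rw [← Padic.valuation_ratCast, ← hz, Padic.valuation_pow]
    norm_num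
  have hnum0 : r.num ≠ 0 := Rat.num_ne_zero.2 hr0
  have hn0 : r.num.natAbs * r.den ≠ 0 := Nat.mul_ne_zero (Int.natAbs_ne_zero.2 hnum0) r.den_nz
  obtain ⟨b, hb⟩ := nat_sq_of_even (r.num.natAbs * r.den) hn0 (by
    intro p hp
    have : Fact p.Prime := ⟨hp⟩
    obtain ⟨k, hk⟩ := hval p
    rw [padicValNat.mul (Int.natAbs_ne_zero.2 hnum0) r.den_nz]
    unfold padicValRat padicValInt at hk
    rw [Nat.even_iff]
    omega)
  have hden : (r.den : ℚ) ≠ 0 := by exact_mod_cast r.den_nz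
  have hb0 : b ≠ 0 := by
    rintro rfl
    exact hn0 (by rw [← hb]; norm_num)
  have hc : ((b : ℚ) / r.den) ^ 2 = |r| := by
    have h1 : ((b : ℚ)) ^ 2 = (r.num.natAbs : ℚ) * r.den := by exact_mod_cast hb
    have h2 : |r| = (r.num.natAbs : ℚ) / r.den := by
      rw [← Rat.num_div_den |r|, Rat.num_abs_eq_abs_num, Rat.den_abs_eq_den]
      rw [Nat.cast_natAbs]
    rw [div_pow, h1, h2]
    field_simp
  rcases le_or_gt 0 r with hpos | hneg
  · exact ⟨_, by rw [hc, abs_of_nonneg hpos]⟩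
  · exfalso
    have : Fact (Nat.Prime 3) := ⟨Nat.prime_three⟩
    obtain ⟨z, hz⟩ := hr 3
    obtain ⟨c, hcdef⟩ : ∃ c : ℚ, c = (b : ℚ) / r.den := ⟨_, rfl⟩
    have hc0 : c ≠ 0 := by
      rw [hcdef]
      have : (b : ℚ) ≠ 0 := by exact_mod_cast hb0
      positivity
    rw [← hcdef, abs_of_neg hneg] at hc
    have hrc : r = - c ^ 2 := by linarith
    have hc0' : (c : ℚ_[3]) ≠ 0 := by exact_mod_cast hc0
    obtain ⟨w, hw⟩ : ∃ w : ℚ_[3], w = z / (c : ℚ_[3]) := ⟨_, rfl⟩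
    have hw2 : w ^ 2 = -1 := by
      rw [hw, div_pow, hz, hrc]
      push_cast
      field_simp
    have hwn : ‖w‖ ≤ 1 := by
      have h1 : ‖w‖ ^ 2 = 1 := by
        rw [← norm_pow, hw2, norm_neg, norm_one]
      nlinarith [norm_nonneg w]
    obtain ⟨W, hW⟩ : ∃ W : ℤ_[3], (W : ℚ_[3]) = w := ⟨⟨w, hwn⟩, rfl⟩
    have hx : W ^ 2 = -1 := by
      apply Subtype.ext
      have h1 : ((W ^ 2 : ℤ_[3]) : ℚ_[3]) = ((-1 : ℤ_[3]) : ℚ_[3]) := by
        push_cast
        rw [hW]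
        exact hw2
      exact h1
    have h3 := congrArg (PadicInt.toZMod (p := 3)) hx
    rw [map_pow, map_neg, map_one] at h3
    exact no_sq3 _ h3

open Cardinal in
theorem mk_padic_le (l : ℕ) [Fact l.Prime] : #ℚ_[l] ≤ 𝔠 := by
  have h1 : #(ℕ → ℚ) = 𝔠 := by
    rw [← Cardinal.power_def, Cardinal.mk_nat, Cardinal.mk_eq_aleph0 ℚ, Cardinal.aleph0_power_aleph0]
  have h2 : #(CauSeq ℚ (padicNorm l)) ≤ 𝔠 := by
    rw [← h1]
    exact Cardinal.mk_subtype_le _
  exact le_trans Cardinal.mk_quotient_le h2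

open Cardinal in
theorem emb : S_emb := by
  intro l _
  have h1 : #(AlgebraicClosure ℚ_[l]) = 𝔠 := by
    apply le_antisymm
    · refine le_trans (Algebra.IsAlgebraic.cardinalMk_le_max ℚ_[l] (AlgebraicClosure ℚ_[l])) ?_
      exact max_le (mk_padic_le l) Cardinal.aleph0_le_continuum
    · refine le_trans (continuum_le_cardinal_of_nontriviallyNormedField ℚ_[l]) ?_
      exact Cardinal.mk_le_of_injective
        (algebraMap ℚ_[l] (AlgebraicClosure ℚ_[l])).injective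
  have : CharZero (AlgebraicClosure ℚ_[l]) :=
    charZero_of_injective_algebraMap (algebraMap ℚ_[l] (AlgebraicClosure ℚ_[l])).injective
  have h2 : Nonempty (AlgebraicClosure ℚ_[l] ≃ ℂ) := by
    rw [← Cardinal.eq, h1, Cardinal.mk_complex]
  obtain ⟨e⟩ := IsAlgClosed.ringEquiv_of_equiv_of_charZero (K := AlgebraicClosure ℚ_[l]) (L := ℂ)
    (by rw [h1]; exact Cardinal.aleph0_lt_continuum) h2
  exact ⟨e.toRingHom.comp (algebraMap ℚ_[l] (AlgebraicClosure ℚ_[l]))⟩

end W435.PG
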